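import Pool.Agent.Lib.MP_d2f638_ag.General

/-!
# Real rationality of intersections of two quadrics in even-dimensional projective space

Let `X` be a smooth complete intersection of two real quadrics in projective space of even
dimension `n ≥ 4` such that the space of real points is nonempty and connected. Then `X` is
rational over `ℝ`, except possibly when `n` is not of the form `2 ^ r + 2` and `X` belongs to an
explicit family of diagonal pencils.
-/

namespace Pool.Agent.Results.MP_d2f638_ag.EvenRational

open _root_.MP_d2f638_ag

theorem result (n : ℕ) (hn : 4 ≤ n) (heven : Even n) (A B : Matrix (Fin (n + 1)) (Fin (n + 1)) ℝ)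
    (hA : A.IsSymm) (hB : B.IsSymm) (hsmooth : SmoothCI A B)
    (hconn : ConnectedSpace (RealPoints A B)) :
    RRational (n - 2) A B ∨ (Exceptional A B ∧ ∀ r : ℕ, n ≠ 2 ^ r + 2) := by
  obtain ⟨N, hN⟩ := heven
  have h1 : n - 2 = 2 * (N - 1) := by omega
  rcases general hA hB hsmooth hconn (N := N - 1) (by omega)
    (by rw [Fintype.card_fin]; omega) with h | h
  · rw [h1]
    exact Or.inl h
  · by_cases hr : ∀ r : ℕ, n ≠ 2 ^ r + 2
    · exact Or.inr ⟨h, hr⟩
    · push Not at hr
      obtain ⟨r, hr⟩ := hr
      exact absurd h (not_exceptional_of_pow (r := r) (by rw [Fintype.card_fin]; omega))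

end Pool.Agent.Results.MP_d2f638_ag.EvenRational
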