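import Pool.Agent.Lib.MP_d2f638_ag.Stab.Main

/-!
# A connected intersection of two real quadrics which is not stably rational

There is a smooth complete intersection `X` of two quadrics in projective space of dimension `5`
over `ℝ` such that the space of real points is nonempty and connected, and `X` is not stably
rational over `ℝ`.
-/

namespace Pool.Agent.Results.MP_d2f638_ag.NotStablyRational

open _root_.MP_d2f638_ag

theorem result : ∃ A B : Matrix (Fin 6) (Fin 6) ℝ, A.IsSymm ∧ B.IsSymm ∧ SmoothCI A B ∧
    ConnectedSpace (RealPoints A B) ∧ (idealX A B).IsPrime ∧ ¬ StablyRRational 3 A B :=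
  Stab.main_of (Stab.conf Stab.count Stab.snoc) Stab.desc Stab.xGeom

end Pool.Agent.Results.MP_d2f638_ag.NotStablyRational
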